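import Pool.Agent.Helper87.NJ.St
import Pool.Agent.Helper10.FST.Rdj

/-! The rows [RDJ] and [JTI] of NSLJ. -/

set_option autoImplicit false

namespace Pool.Agent.Helper10.NJ

open Finset Filter Topology Matrix Pool.Agent.Helper69.RK Pool.Agent.Helper31.EC Pool.Agent.Helper31.EC.Sp
open Pool.Agent.Helper40.EL Pool.Agent.Helper89.LX Pool.Agent.Helper84.MT
open Pool.Agent.Helper29.MX Pool.Agent.Helper15.FST Pool.Agent.Helper87.NJ Pool.Agent.Helper10.FST

/-- rounding of the point -/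
theorem row_rdj (N : ℕ) : ROW_RDJ N := fun _ _ hC m _ _ _ _ _ _ _ s _ h =>
  ⟨jt_rd (hC.pnt m) h, Pool.Agent.Helper3.ENT.lt_rd s, fun _ _ _ h1 => ful_rd h1⟩

/-- events of extensions -/
theorem row_jti (N : ℕ) : ROW_JTI N := fun _ _ hC m _ _ _ _ _ _ _ _ _ _ h _ p =>
  ⟨jt_pull (fun _ g _ s hs T q => hC.add m _ g _ s hs T q g _ (fun _ => le_rfl)
    (fun i => ((s.lf i).pull q).monoE fun _ => le_rfl) id fun _ => rfl) h p, fun A' hA => jt_im (hC.im m) h p A' hA⟩

end Pool.Agent.Helper10.NJ
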